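import Pool.Agent.R841.TD.Defs
import Pool.Agent.Helper9.TDExt

/-!
Project TD (MP_770f2c), piece TD-POLY-D (helper711): the identities for the sequence `T`,
the operator `D` on polynomials and the nonvanishing of `T`.
-/

set_option autoImplicit false

namespace Pool.Agent.R841.TD

open Polynomial Module Pool.Agent.Helper9.TD

section

variable {K : Type*} [Field K]

/-- (I) -/
theorem TT_I (β : K) (r : ℕ) : TT β (r + 1) ^ 2 - TT β (r + 1) = TT β (r + 2) * TT β r := by
  induction r with
  | zero => simp [TT]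
  | succ r ih =>
    have h1 : TT β (r + 1 + 2) = β * TT β (r + 2) - TT β (r + 1) + 1 := rfl
    have h2 : TT β (r + 2) = β * TT β (r + 1) - TT β r + 1 := rfl
    have h3 : TT β (r + 1 + 1) = TT β (r + 2) := rfl
    rw [h1, h3]
    linear_combination ih + TT β (r + 2) * h2

/-- (I2) and (I1), for a sequence on the naturals with `A i - β A (i+1) + A (i+2) = γ` -/
theorem TT_I2 {β γ : K} {A : ℕ → K} (hA : ∀ i, A i - β * A (i + 1) + A (i + 2) = γ) (z n : ℕ) :
    A (z + n + 2) - A (z + 1) =
      TT β (n + 1) * (A (z + 2) - A (z + 1)) - TT β n * (A (z + 1) - A z) := by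
  induction n using Nat.strong_induction_on with
  | _ n ih =>
    rcases n with _ | _ | n
    · simp [TT]
    · have h1 := hA z
      have h2 := hA (z + 1)
      have e1 : z + (0 + 1) + 2 = z + 3 := rfl
      have e2 : z + 1 + 1 = z + 2 := rfl
      have e3 : z + 1 + 2 = z + 3 := rfl
      have e4 : TT β (0 + 1 + 1) = β + 1 := by simp [TT]
      have e5 : TT β (0 + 1) = 1 := rfl
      rw [e2, e3] at h2
      rw [e1, e4, e5]
      linear_combination h2 - h1
    · have i1 := ih n (by omega)
      have i2 := ih (n + 1) (by omega)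
      have h1 : TT β (n + 1 + 1 + 1) = β * TT β (n + 2) - TT β (n + 1) + 1 := rfl
      have h2 : TT β (n + 1 + 1) = β * TT β (n + 1) - TT β n + 1 := rfl
      have e1 : z + (n + 1 + 1) + 2 = z + n + 4 := by ring
      have e2 : z + (n + 1) + 2 = z + n + 3 := by ring
      have h3 := hA (z + n + 2)
      have e3 : z + n + 2 + 1 = z + n + 3 := rfl
      have e4 : z + n + 2 + 2 = z + n + 4 := rfl
      have h4 := hA z
      rw [e3, e4] at h3
      rw [e2] at i2
      rw [e1, h1, h2]
      rw [h2] at i2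
      linear_combination h3 + β * i2 - i1 - h4

theorem TT_EQ {β γ : K} {A : ℕ → K} (hA : ∀ i, A i - β * A (i + 1) + A (i + 2) = γ) (z r : ℕ) :
    TT β (r + 2) * (A (z + r + 2) - A (z + 1)) = TT β (r + 1) * (A (z + r + 3) - A z) := by
  have h1 := TT_I2 hA z r
  have h2 := TT_I2 hA z (r + 1)
  have h3 := TT_I β r
  have e1 : z + (r + 1) + 2 = z + r + 3 := by ring
  have e2 : TT β (r + 1 + 1) = TT β (r + 2) := rfl
  rw [e1, e2] at h2
  linear_combination TT β (r + 2) * h1 - TT β (r + 1) * h2 + (A (z + 1) - A z) * h3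

theorem exists_extN (d : ℕ) (a : ℕ → K) (β : K)
    (hrec : ∀ i, i + 3 ≤ d → a i - a (i + 3) = (β + 1) * (a (i + 1) - a (i + 2))) :
    ∃ (γ : K) (A : ℕ → K), (∀ i, A i - β * A (i + 1) + A (i + 2) = γ) ∧ ∀ i ≤ d, A i = a i := by
  obtain ⟨γ, A, hA, hAa⟩ := exists_ext d a β hrec
  refine ⟨γ, fun i => A i, fun i => ?_, hAa⟩
  have h := hA (i + 1)
  rw [add_sub_cancel_right] at h
  have e1 : ((i : ℤ) + 1 + 1) = ((i + 2 : ℕ) : ℤ) := by push_cast; ring
  have e2 : ((i : ℤ) + 1) = ((i + 1 : ℕ) : ℤ) := by push_cast; ring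
  rw [e1, e2] at h
  exact h

/-- TD-POLY, part N: nonvanishing -/
theorem TT_ne_zero (d : ℕ) (a : ℕ → K) (β : K)
    (hinj : ∀ i ≤ d, ∀ j ≤ d, a i = a j → i = j)
    (hrec : ∀ i, i + 3 ≤ d → a i - a (i + 3) = (β + 1) * (a (i + 1) - a (i + 2)))
    (n : ℕ) (hn : n + 2 ≤ d) : TT β (n + 1) ≠ 0 := by
  obtain ⟨γ, A, hA, hAa⟩ := exists_extN d a β hrec
  induction n with
  | zero => simp [TT]
  | succ n ih =>
    intro h0
    have h1 := TT_EQ hA 0 n
    have e1 : TT β (n + 2) = 0 := h0
    rw [e1, zero_mul] at h1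
    rcases mul_eq_zero.1 h1.symm with h2 | h2
    · exact ih (by omega) h2
    · rw [zero_add, hAa (n + 3) (by omega), hAa 0 (by omega), sub_eq_zero] at h2
      have := hinj _ (by omega) _ (by omega) h2
      omega

theorem str_congr {a b : ℕ → K} {j s : ℕ} (h : ∀ i < s, a (j + i) = b (j + i)) :
    str a j s = str b j s :=
  Finset.prod_congr rfl fun i hi => by rw [h i (Finset.mem_range.1 hi)]

theorem str_rev (a : ℕ → K) (d j s : ℕ) (h : j + s ≤ d + 1) :
    str (fun i => a (d - i)) j s = str a (d + 1 - j - s) s := by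
  rw [str, str, ← Finset.prod_range_reflect]
  refine Finset.prod_congr rfl fun i hi => ?_
  have := Finset.mem_range.1 hi
  congr 3
  omega

/-- (*) -/
theorem str_star (A : ℕ → K) (z s : ℕ) :
    str A z (s + 1) = str A (z + 1) (s + 1) + C (A (z + s + 1) - A z) * str A (z + 1) s := by
  rw [str_succ', str_succ]
  have e : z + 1 + s = z + s + 1 := by ring
  rw [e, C_sub]
  ring

/-- the basis of the polynomials `str A 0 s` -/
noncomputable def strSeq (A : ℕ → K) (z : ℕ) : Polynomial.Sequence K where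
  elems' s := str A z s
  degree_eq' s := by
    rw [degree_eq_natDegree (str_monic A z s).ne_zero, str_natDegree]

/-- universal operator `D` -/
theorem exists_D {β γ : K} {A : ℕ → K} (hA : ∀ i, A i - β * A (i + 1) + A (i + 2) = γ) :
    ∃ D : K[X] →ₗ[K] K[X], ∀ z s,
      D (str A z s) = C (TT β (s - 1)) * str A (z + 1) (s - 2) := by
  have hu : ∀ i, IsUnit (strSeq A 0 i).leadingCoeff := fun i => by
    have h : (strSeq A 0 i).leadingCoeff = 1 := str_monic A 0 i
    rw [h]
    exact isUnit_one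
  let b := (strSeq A 0).basis hu
  have hb : ∀ s, b s = str A 0 s := fun s => (strSeq A 0).basis_eq_self hu s
  refine ⟨b.constr K fun s => C (TT β (s - 1)) * str A 1 (s - 2), fun z => ?_⟩
  set D : K[X] →ₗ[K] K[X] := b.constr K fun s => C (TT β (s - 1)) * str A 1 (s - 2) with hD
  have hD0 : ∀ s, D (str A 0 s) = C (TT β (s - 1)) * str A 1 (s - 2) := fun s => by
    rw [← hb s, hD, Basis.constr_basis]
  have hC : ∀ (c : K) (f : K[X]), D (C c * f) = C c * D f := fun c f => by
    rw [← smul_eq_C_mul, ← smul_eq_C_mul, map_smul]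
  induction z with
  | zero => exact hD0
  | succ z ihz =>
    intro s
    induction s with
    | zero =>
      have h := hD0 0
      rw [str_zero] at h ⊢
      rw [h]
      simp [TT]
    | succ s ihs =>
      have h1 : D (str A (z + 1) (s + 1)) =
          D (str A z (s + 1)) - C (A (z + s + 1) - A z) * D (str A (z + 1) s) := by
        rw [← hC, ← map_sub, str_star A z s, add_sub_cancel_right]
      rw [h1, ihs, ihz]
      rcases s with _ | _ | s
      · simp [TT]
      · simp [TT, str_zero]
      · have e1 : s + 1 + 1 + 1 - 1 = s + 2 := rfl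
        have e2 : s + 1 + 1 + 1 - 2 = s + 1 := rfl
        have e3 : s + 1 + 1 - 1 = s + 1 := rfl
        have e4 : s + 1 + 1 - 2 = s := rfl
        rw [e1, e2, e3, e4, str_succ', str_succ]
        have h2 := TT_EQ hA z s
        have h3 : (C (TT β (s + 2)) : K[X]) * (C (A (z + s + 2)) - C (A (z + 1))) =
            C (TT β (s + 1)) * (C (A (z + s + 3)) - C (A z)) := by
          rw [← C_sub, ← C_sub, ← C_mul, ← C_mul, h2]
        have e5 : z + (s + 1 + 1) + 1 = z + s + 3 := by ring
        have e6 : z + 1 + 1 + s = z + s + 2 := by ring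
        rw [e5, e6, C_sub]
        linear_combination str A (z + 1 + 1) s * h3

/-- TD-POLY, part D -/
theorem poly_D (d : ℕ) (a : ℕ → K) (β : K)
    (hrec : ∀ i, i + 3 ≤ d → a i - a (i + 3) = (β + 1) * (a (i + 1) - a (i + 2))) :
    ∃ D : K[X] →ₗ[K] K[X], ∀ j s, 2 * j + s ≤ d →
      D (str a j s) = C (TT β (s - 1)) * str a (j + 1) (s - 2) ∧
      D (str (fun i => a (d - i)) j s) =
        C (TT β (s - 1)) * str (fun i => a (d - i)) (j + 1) (s - 2) := by
  obtain ⟨γ, A, hA, hAa⟩ := exists_extN d a β hrec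
  obtain ⟨D, hD⟩ := exists_D hA
  refine ⟨D, fun j s hjs => ⟨?_, ?_⟩⟩
  · rw [str_congr (a := a) (b := A) fun i hi => (hAa _ (by omega)).symm, hD,
      str_congr (a := a) (b := A) (j := j + 1) (s := s - 2) fun i hi => (hAa _ (by omega)).symm]
  · rw [str_rev a d j s (by omega),
      str_congr (a := a) (b := A) fun i hi => (hAa _ (by omega)).symm, hD]
    rcases Nat.lt_or_ge s 2 with hs | hs
    · have h0 : s - 1 = 0 := by omega
      rw [h0]
      simp [TT]
    · rw [str_rev a d (j + 1) (s - 2) (by omega)]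
      have e : d + 1 - (j + 1) - (s - 2) = d + 1 - j - s + 1 := by omega
      rw [e, str_congr (a := a) (b := A) (j := d + 1 - j - s + 1) (s := s - 2)
        fun i hi => (hAa _ (by omega)).symm]

end

end Pool.Agent.R841.TD
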