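import Pool.Agent.R841.TD.Defs
import Pool.Agent.Helper9.TDNec

/-!
# TD-REC: recurrence of the eigenvalues (helper138)
-/

set_option autoImplicit false

namespace Pool.Agent.R841.TD

open Polynomial Module Pool.Agent.Helper9.TD

namespace RecAux

variable {K : Type*} [Field K] {V : Type*} [AddCommGroup V] [Module K V]

/-- vectors with `Q`-components only below `m` -/
def FF (d : ℕ) (Q : ℕ → Module.End K V) (m : ℕ) : Submodule K V where
  carrier := {v | ∀ l ≤ d, m ≤ l → Q l v = 0}
  add_mem' := by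
    intro x y hx hy l hl hm
    rw [map_add, hx l hl hm, hy l hl hm, add_zero]
  zero_mem' := fun l _ _ => map_zero _
  smul_mem' := by
    intro c x hx l hl hm
    rw [map_smul, hx l hl hm, smul_zero]

theorem mem_FF {d : ℕ} {Q : ℕ → Module.End K V} {m : ℕ} {v : V} :
    v ∈ FF d Q m ↔ ∀ l ≤ d, m ≤ l → Q l v = 0 := Iff.rfl

theorem FF_mono {d : ℕ} {Q : ℕ → Module.End K V} {m n : ℕ} (h : m ≤ n) {v : V}
    (hv : v ∈ FF d Q m) : v ∈ FF d Q n := fun l hl hn => hv l hl (h.trans hn)

variable {A B : Module.End K V} {d : ℕ} {a b : ℕ → K} {P Q : ℕ → Module.End K V}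

theorem FF_A (h : Sys A B d a P d b Q) {m : ℕ} {v : V} (hv : v ∈ FF d Q m) :
    A v ∈ FF d Q (m + 1) := by
  intro l hl hml
  rcases m with _ | m
  · have h0 : v = 0 := by
      rw [← h.iB.sum v]
      exact Finset.sum_eq_zero fun k hk => hv k (by simpa [Nat.lt_succ_iff] using hk) (by omega)
    rw [h0, map_zero, map_zero]
  · exact up_lemma h.iB h.triB m v (fun k hk hmk => hv k hk hmk) l hl (by omega)

theorem FF_B (h : Sys A B d a P d b Q) {m : ℕ} {v : V} (hv : v ∈ FF d Q m) :
    B v ∈ FF d Q m := by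
  intro l hl hml
  rw [h.iB.comm l hl, hv l hl hml, smul_zero]

/-- the vectors `r k` -/
def rr (A : Module.End K V) (a : ℕ → K) (v : V) : ℕ → V
  | 0 => v
  | (k + 1) => A (rr A a v k) - a k • rr A a v k

theorem rr_mem (h : Sys A B d a P d b Q) {v : V} (hv : v ∈ NN d P d Q 0 0) (k : ℕ) :
    rr A a v k ∈ NN d P d Q k k := by
  induction k with
  | zero => exact hv
  | succ k ih => exact h.NN_A k k _ ih

theorem NN_FF {k : ℕ} {x : V} (hx : x ∈ NN d P d Q k k) : x ∈ FF d Q (k + 1) :=
  fun l hl hml => hx.1 l hl (by omega)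

theorem NN_FF_zero (h : Sys A B d a P d b Q) {k : ℕ} {x : V} (hx : x ∈ NN d P d Q k k)
    (hx2 : x ∈ FF d Q k) : x = 0 := by
  rcases k with _ | k
  · rw [← h.iB.sum x]
    exact Finset.sum_eq_zero fun k hk => hx2 k (by simpa [Nat.lt_succ_iff] using hk) (by omega)
  · refine h.disj k (k + 1) (by omega) x ?_
    rw [mem_NN]
    exact ⟨fun l hl hkl => hx2 l hl (by omega), hx.2⟩

theorem rr_ne (h : Sys A B d a P d b Q) {v : V} (hv : v ∈ NN d P d Q 0 0) (hv0 : v ≠ 0)
    (k : ℕ) (hk : k ≤ d) : rr A a v k ≠ 0 := by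
  intro h0
  have h1 : ∀ k, P d (rr A a v k) = (∏ i ∈ Finset.range k, (a d - a i)) • P d v := by
    intro k
    induction k with
    | zero => simp [rr]
    | succ k ih =>
      rw [rr, map_sub, map_smul, h.iA.comm d le_rfl, ih, Finset.prod_range_succ]
      module
  have h2 := h1 k
  rw [h0, map_zero] at h2
  have h3 : ∏ i ∈ Finset.range k, (a d - a i) ≠ 0 := by
    rw [Finset.prod_ne_zero_iff]
    intro i hi hc
    rw [Finset.mem_range] at hi
    have := h.iA.inj d le_rfl i (by omega) (sub_eq_zero.mp hc)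
    omega
  have h4 : P d v = 0 := by
    rcases smul_eq_zero.mp h2.symm with h5 | h5
    · exact absurd h5 h3
    · exact h5
  refine hv0 (h.revA.disj 0 1 (by omega) v ?_)
  rw [mem_NN]
  refine ⟨hv.1, fun k hk hk1 => ?_⟩
  have : k = 0 := by omega
  subst this
  exact h4

/-- `A r_k ≡ r_{k+1}` modulo lower terms -/
theorem A_rr (h : Sys A B d a P d b Q) {v : V} (hv : v ∈ NN d P d Q 0 0) (k : ℕ) :
    A (rr A a v k) - rr A a v (k + 1) ∈ FF d Q (k + 1) := by
  have : A (rr A a v k) - rr A a v (k + 1) = a k • rr A a v k := by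
    rw [rr]
    abel
  rw [this]
  exact Submodule.smul_mem _ _ (NN_FF (rr_mem h hv k))

theorem B_rr (h : Sys A B d a P d b Q) {v : V} (hv : v ∈ NN d P d Q 0 0) (k : ℕ) :
    B (rr A a v k) - b k • rr A a v k ∈ FF d Q k := by
  rcases k with _ | k
  · have := h.NN_B0 0 v hv
    rw [rr, this, sub_self]
    exact Submodule.zero_mem _
  · exact NN_FF (h.NN_B k k _ (rr_mem h hv (k + 1)))

theorem pow_rr (h : Sys A B d a P d b Q) {v : V} (hv : v ∈ NN d P d Q 0 0) (k n : ℕ) :
    (A ^ n) (rr A a v k) - rr A a v (k + n) ∈ FF d Q (k + n) := by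
  induction n with
  | zero =>
    simp only [pow_zero, Module.End.one_apply, add_zero, sub_self]
    exact Submodule.zero_mem _
  | succ n ih =>
    rw [pow_succ', Module.End.mul_apply]
    have e : A ((A ^ n) (rr A a v k)) - rr A a v (k + (n + 1)) =
        A ((A ^ n) (rr A a v k) - rr A a v (k + n)) +
          (A (rr A a v (k + n)) - rr A a v (k + n + 1)) := by
      rw [map_sub, ← add_assoc]
      abel
    rw [e]
    refine Submodule.add_mem _ ?_ ?_
    · exact FF_A h ih
    · exact A_rr h hv (k + n)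

theorem pow_FF (h : Sys A B d a P d b Q) {m : ℕ} {x : V} (hx : x ∈ FF d Q m) (n : ℕ) :
    (A ^ n) x ∈ FF d Q (m + n) := by
  induction n with
  | zero => simpa using hx
  | succ n ih =>
    rw [pow_succ', Module.End.mul_apply]
    exact FF_A h ih

theorem aeval_FF (h : Sys A B d a P d b Q) {m n : ℕ} {x : V} (hx : x ∈ FF d Q m) (g : K[X])
    (hg : g.natDegree ≤ n) : aeval A g x ∈ FF d Q (m + n) := by
  rw [aeval_eq_sum_range' (Nat.lt_succ_of_le hg), LinearMap.sum_apply]
  refine Submodule.sum_mem _ fun i hi => ?_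
  rw [Finset.mem_range] at hi
  rw [LinearMap.smul_apply]
  exact Submodule.smul_mem _ _ (FF_mono (by omega) (pow_FF h hx i))

theorem aeval_rr (h : Sys A B d a P d b Q) {v : V} (hv : v ∈ NN d P d Q 0 0) (k n : ℕ) (g : K[X])
    (hg : g.natDegree ≤ n) :
    aeval A g (rr A a v k) - g.coeff n • rr A a v (k + n) ∈ FF d Q (k + n) := by
  rw [aeval_eq_sum_range' (Nat.lt_succ_of_le hg), LinearMap.sum_apply, Finset.sum_range_succ]
  have e : (∑ i ∈ Finset.range n, (g.coeff i • A ^ i) (rr A a v k) +
      (g.coeff n • A ^ n) (rr A a v k)) - g.coeff n • rr A a v (k + n) =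
      ∑ i ∈ Finset.range n, (g.coeff i • A ^ i) (rr A a v k) +
        g.coeff n • ((A ^ n) (rr A a v k) - rr A a v (k + n)) := by
    rw [LinearMap.smul_apply, smul_sub]
    abel
  rw [e]
  refine Submodule.add_mem _ (Submodule.sum_mem _ fun i hi => ?_) ?_
  · rw [Finset.mem_range] at hi
    rw [LinearMap.smul_apply]
    exact Submodule.smul_mem _ _ (FF_mono (by omega) (pow_FF h (NN_FF (rr_mem h hv k)) i))
  · exact Submodule.smul_mem _ _ (pow_rr h hv k n)

theorem rec_b (h : Sys A B d a P d b Q) :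
    ∃ β : K, ∀ i, i + 3 ≤ d → b i - b (i + 3) = (β + 1) * (b (i + 1) - b (i + 2)) := by
  classical
  rcases Nat.lt_or_ge d 3 with hd | hd
  · exact ⟨0, fun i hi => by omega⟩
  -- the starting vector
  obtain ⟨w, hw⟩ := h.neB 0 (by omega)
  set v := Q 0 w with hvdef
  have hv : v ∈ NN d P d Q 0 0 := by
    rw [mem_NN]
    refine ⟨fun k hk h0k => ?_, fun k _ hk0 => by omega⟩
    rw [hvdef, h.iB.orth k hk 0 (by omega), if_neg (by omega)]
  -- the interpolation polynomial
  let r : ℕ → K := fun i => ∑ k ∈ Finset.range i, a (k + 1) * a k * (a (k + 1) - a k)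
  let z : K[X] := Lagrange.interpolate (Finset.range (d + 1)) a r
  have hinj : Set.InjOn a (Finset.range (d + 1)) := by
    intro i hi j hj hij
    simp only [Finset.coe_range, Set.mem_Iio] at hi hj
    exact h.iA.inj i (by omega) j (by omega) hij
  have hzr : ∀ i ≤ d, z.eval (a i) = r i := fun i hi =>
    Lagrange.eval_interpolate_at_node r hinj (Finset.mem_range.mpr (by omega))
  have hz : ∀ i, i + 1 ≤ d → z.eval (a (i + 1)) - z.eval (a i)
      = a (i + 1) * a i * (a (i + 1) - a i) := by
    intro i hi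
    rw [hzr (i + 1) hi, hzr i (by omega)]
    simp only [r, Finset.sum_range_succ]
    ring
  have hid := interp_identity h.iA h.triA z hz
  have hdeg : z.natDegree ≤ d := by
    have h1 := Lagrange.degree_interpolate_lt r hinj
    rw [Finset.card_range] at h1
    have h2 : z.degree < ((d + 1 : ℕ) : WithBot ℕ) := h1
    rw [← Nat.lt_succ_iff]
    by_cases hz0 : z = 0
    · rw [hz0, natDegree_zero]
      omega
    · exact (natDegree_lt_iff_degree_lt hz0).2 h2
  have hF1 : v ∈ FF d Q 1 := NN_FF hv
  -- the degree is at most three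
  have hdeg3 : z.natDegree ≤ 3 := by
    by_contra hlt
    push Not at hlt
    set n := z.natDegree with hn
    have hz0 : z ≠ 0 := by
      intro h0
      rw [hn, h0, natDegree_zero] at hlt
      omega
    have hc : z.coeff n ≠ 0 := by
      rw [hn]
      exact leadingCoeff_ne_zero.2 hz0
    have h1 : A (A (B (A v))) - A (B (A (A v))) ∈ FF d Q 4 :=
      Submodule.sub_mem _ (FF_A h (FF_A h (FF_B h (FF_A h hF1))))
        (FF_A h (FF_B h (FF_A h (FF_A h hF1))))
    rw [hid v, h.NN_B0 0 v hv, map_smul] at h1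
    have h2 := aeval_rr h hv 0 n z le_rfl
    rw [zero_add] at h2
    have e0 : rr A a v 0 = v := rfl
    rw [e0] at h2
    have h3 := B_rr h hv n
    have h4 : (z.coeff n * (b 0 - b n)) • rr A a v n ∈ FF d Q n := by
      have e : (z.coeff n * (b 0 - b n)) • rr A a v n =
          (b 0 • aeval A z v - B (aeval A z v)) - b 0 • (aeval A z v - z.coeff n • rr A a v n) +
          B (aeval A z v - z.coeff n • rr A a v n) +
          z.coeff n • (B (rr A a v n) - b n • rr A a v n) := by
        rw [map_sub, map_smul]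
        module
      rw [e]
      exact Submodule.add_mem _ (Submodule.add_mem _ (Submodule.sub_mem _ (FF_mono (by omega) h1)
        (Submodule.smul_mem _ _ h2)) (FF_B h h2)) (Submodule.smul_mem _ _ h3)
    have h5 := NN_FF_zero h (Submodule.smul_mem _ _ (rr_mem h hv n)) h4
    rcases smul_eq_zero.mp h5 with h6 | h6
    · rcases mul_eq_zero.mp h6 with h7 | h7
      · exact hc h7
      · have := h.iB.inj 0 (by omega) n hdeg (sub_eq_zero.mp h7)
        omega
    · exact rr_ne h hv hw n hdeg h6
  -- the comparison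
  have key : ∀ k, k + 3 ≤ d → b (k + 1) - b (k + 2) = z.coeff 3 * (b k - b (k + 3)) := by
    intro k hk
    have hr := rr_mem h hv
    have m1 : A (rr A a v k) - rr A a v (k + 1) ∈ FF d Q (k + 1) := A_rr h hv k
    have m2 : A (rr A a v (k + 1)) - rr A a v (k + 2) ∈ FF d Q (k + 2) := A_rr h hv (k + 1)
    have m3 : A (rr A a v (k + 2)) - rr A a v (k + 3) ∈ FF d Q (k + 3) := A_rr h hv (k + 2)
    have n0 := B_rr h hv k
    have n1 := B_rr h hv (k + 1)
    have n2 := B_rr h hv (k + 2)
    have n3 := B_rr h hv (k + 3)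
    -- A A B A
    have p1 : B (A (rr A a v k)) - b (k + 1) • rr A a v (k + 1) ∈ FF d Q (k + 1) := by
      have e : B (A (rr A a v k)) - b (k + 1) • rr A a v (k + 1) =
          B (A (rr A a v k) - rr A a v (k + 1)) +
            (B (rr A a v (k + 1)) - b (k + 1) • rr A a v (k + 1)) := by
        rw [map_sub]; abel
      rw [e]
      exact Submodule.add_mem _ (FF_B h m1) n1
    have p2 : A (B (A (rr A a v k))) - b (k + 1) • rr A a v (k + 2) ∈ FF d Q (k + 2) := by
      have e : A (B (A (rr A a v k))) - b (k + 1) • rr A a v (k + 2) =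
          A (B (A (rr A a v k)) - b (k + 1) • rr A a v (k + 1)) +
            b (k + 1) • (A (rr A a v (k + 1)) - rr A a v (k + 2)) := by
        rw [map_sub, map_smul]; module
      rw [e]
      exact Submodule.add_mem _ (FF_A h p1) (Submodule.smul_mem _ _ m2)
    have p3 : A (A (B (A (rr A a v k)))) - b (k + 1) • rr A a v (k + 3) ∈ FF d Q (k + 3) := by
      have e : A (A (B (A (rr A a v k)))) - b (k + 1) • rr A a v (k + 3) =
          A (A (B (A (rr A a v k))) - b (k + 1) • rr A a v (k + 2)) +
            b (k + 1) • (A (rr A a v (k + 2)) - rr A a v (k + 3)) := by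
        rw [map_sub, map_smul]; module
      rw [e]
      exact Submodule.add_mem _ (FF_A h p2) (Submodule.smul_mem _ _ m3)
    -- A B A A
    have q1 : A (A (rr A a v k)) - rr A a v (k + 2) ∈ FF d Q (k + 2) := by
      have e : A (A (rr A a v k)) - rr A a v (k + 2) =
          A (A (rr A a v k) - rr A a v (k + 1)) + (A (rr A a v (k + 1)) - rr A a v (k + 2)) := by
        rw [map_sub]; abel
      rw [e]
      exact Submodule.add_mem _ (FF_A h m1) m2
    have q2 : B (A (A (rr A a v k))) - b (k + 2) • rr A a v (k + 2) ∈ FF d Q (k + 2) := by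
      have e : B (A (A (rr A a v k))) - b (k + 2) • rr A a v (k + 2) =
          B (A (A (rr A a v k)) - rr A a v (k + 2)) +
            (B (rr A a v (k + 2)) - b (k + 2) • rr A a v (k + 2)) := by
        rw [map_sub]; abel
      rw [e]
      exact Submodule.add_mem _ (FF_B h q1) n2
    have q3 : A (B (A (A (rr A a v k)))) - b (k + 2) • rr A a v (k + 3) ∈ FF d Q (k + 3) := by
      have e : A (B (A (A (rr A a v k)))) - b (k + 2) • rr A a v (k + 3) =
          A (B (A (A (rr A a v k))) - b (k + 2) • rr A a v (k + 2)) +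
            b (k + 2) • (A (rr A a v (k + 2)) - rr A a v (k + 3)) := by
        rw [map_sub, map_smul]; module
      rw [e]
      exact Submodule.add_mem _ (FF_A h q2) (Submodule.smul_mem _ _ m3)
    -- the right-hand side
    have s0 := aeval_rr h hv k 3 z hdeg3
    have s1 : aeval A z (B (rr A a v k)) - (z.coeff 3 * b k) • rr A a v (k + 3) ∈
        FF d Q (k + 3) := by
      have e : aeval A z (B (rr A a v k)) - (z.coeff 3 * b k) • rr A a v (k + 3) =
          aeval A z (B (rr A a v k) - b k • rr A a v k) +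
            b k • (aeval A z (rr A a v k) - z.coeff 3 • rr A a v (k + 3)) := by
        rw [map_sub, map_smul]; module
      rw [e]
      exact Submodule.add_mem _ (aeval_FF h n0 z hdeg3) (Submodule.smul_mem _ _ s0)
    have s2 : B (aeval A z (rr A a v k)) - (z.coeff 3 * b (k + 3)) • rr A a v (k + 3) ∈
        FF d Q (k + 3) := by
      have e : B (aeval A z (rr A a v k)) - (z.coeff 3 * b (k + 3)) • rr A a v (k + 3) =
          B (aeval A z (rr A a v k) - z.coeff 3 • rr A a v (k + 3)) +
            z.coeff 3 • (B (rr A a v (k + 3)) - b (k + 3) • rr A a v (k + 3)) := by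
        rw [map_sub, map_smul]; module
      rw [e]
      exact Submodule.add_mem _ (FF_B h s0) (Submodule.smul_mem _ _ n3)
    have hk' := hid (rr A a v k)
    have tot : ((b (k + 1) - b (k + 2)) - z.coeff 3 * (b k - b (k + 3))) • rr A a v (k + 3) ∈
        FF d Q (k + 3) := by
      have e : ((b (k + 1) - b (k + 2)) - z.coeff 3 * (b k - b (k + 3))) • rr A a v (k + 3) =
          (aeval A z (B (rr A a v k)) - (z.coeff 3 * b k) • rr A a v (k + 3)) -
          (B (aeval A z (rr A a v k)) - (z.coeff 3 * b (k + 3)) • rr A a v (k + 3)) -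
          (A (A (B (A (rr A a v k)))) - b (k + 1) • rr A a v (k + 3)) +
          (A (B (A (A (rr A a v k)))) - b (k + 2) • rr A a v (k + 3)) -
          ((aeval A z (B (rr A a v k)) - B (aeval A z (rr A a v k))) -
            (A (A (B (A (rr A a v k)))) - A (B (A (A (rr A a v k)))))) := by
        module
      rw [e, hk', sub_self, sub_zero]
      exact Submodule.add_mem _ (Submodule.sub_mem _ (Submodule.sub_mem _ s1 s2) p3) q3
    have h5 := NN_FF_zero h (Submodule.smul_mem _ _ (hr (k + 3))) tot
    rcases smul_eq_zero.mp h5 with h6 | h6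
    · exact sub_eq_zero.mp h6
    · exact absurd h6 (rr_ne h hv hw (k + 3) hk)
  have hc3 : z.coeff 3 ≠ 0 := by
    intro h0
    have := key 0 hd
    rw [h0, zero_mul] at this
    have := h.iB.inj 1 (by omega) 2 (by omega) (sub_eq_zero.mp this)
    omega
  refine ⟨(z.coeff 3)⁻¹ - 1, fun i hi => ?_⟩
  rw [key i hi, sub_add_cancel, ← mul_assoc, inv_mul_cancel₀ hc3, one_mul]

end RecAux

theorem rec_a {K : Type*} [Field K] {V : Type*} [AddCommGroup V] [Module K V]
    {A B : Module.End K V} {d : ℕ} {a b : ℕ → K} {P Q : ℕ → Module.End K V}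
    (h : Sys A B d a P d b Q) :
    ∃ β : K, ∀ i, i + 3 ≤ d → a i - a (i + 3) = (β + 1) * (a (i + 1) - a (i + 2)) :=
  RecAux.rec_b h.swap

end Pool.Agent.R841.TD
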