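import Pool.Agent.R841.TD.Low
import Pool.Agent.R841.TD.PolyD
import Pool.Agent.R841.TD.PolyE
import Pool.Agent.R841.TD.Rec
import Pool.Agent.R841.TD.PolyPsi

/-! Classification of the maps lowering the flag, in terms of the projections. -/

set_option autoImplicit false

namespace Pool.Agent.R841.TD

open Polynomial Module Pool.Agent.Helper9.TD

variable {K : Type*} [Field K] {V : Type*} [AddCommGroup V] [Module K V]

variable {A B : Module.End K V} {d : ℕ} {a b : ℕ → K} {P Q : ℕ → Module.End K V}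
  {X : Module.End K V}

theorem Sys.UL_of_formula (h : Sys A B d a P d b Q) (f g z : ℕ → V → V)
    (hf : ∀ j, ∀ q ∈ LW d P Q j, f j q ∈ LW d P Q j)
    (hg : ∀ j, ∀ q ∈ LW d P Q j, g j q ∈ LW d P Q (j + 1))
    (hz : ∀ j, ∀ q ∈ LW d P Q j, z j q ∈ LW d P Q (j - 1))
    (hz0 : ∀ q ∈ LW d P Q 0, z 0 q = 0) (c1 c2 c3 : ℕ → ℕ → K) (hc1 : ∀ j, c1 j 0 = 0)
    (hc2 : ∀ j s, s ≤ 1 → c2 j s = 0)
    (hX : ∀ j s, 2 * j + s ≤ d → ∀ q ∈ LW d P Q j, X (aeval A (str a j s) q) =
      c1 j s • aeval A (str a j (s - 1)) (f j q) + c2 j s • aeval A (str a (j + 1) (s - 2)) (g j q) +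
      c3 j s • aeval A (str a (j - 1) s) (z j q)) : UL d P Q X := by
  intro i hi v hv
  obtain ⟨q, hq, hqe⟩ := Sys.gen h i hi v hv
  have hNN : ∀ j, ∀ x ∈ LW d P Q j, ∀ s, 1 ≤ i → j + s = i - 1 →
      aeval A (str a j s) x ∈ NN d P d Q (i - 1) (i - 1) := by
    intro j x hx s h1 hs
    rw [← hs]
    exact Sys.aeval_mem h j s x (Submodule.mem_inf.mp hx).1
  have hterm : ∀ j, j ≤ i → i + j ≤ d → (i = 0 → X (aeval A (str a j (i - j)) (q j)) = 0) ∧
      (1 ≤ i → X (aeval A (str a j (i - j)) (q j)) ∈ NN d P d Q (i - 1) (i - 1)) := by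
    intro j hji hij
    rw [hX j (i - j) (by omega) (q j) (hq j)]
    have e3 : j = 0 → z j (q j) = 0 := by
      intro hj; subst hj; exact hz0 _ (hq 0)
    constructor
    · intro hi0
      have hj0 : j = 0 := by omega
      rw [e3 hj0, map_zero, smul_zero, show i - j = 0 by omega, hc1, hc2 j 0 (by omega), zero_smul,
        zero_smul, add_zero, add_zero]
    · intro hi1
      refine Submodule.add_mem _ (Submodule.add_mem _ ?_ ?_) ?_
      · by_cases hs : i - j = 0
        · rw [hs, hc1, zero_smul]; exact Submodule.zero_mem _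
        · exact Submodule.smul_mem _ _ (hNN j _ (hf j _ (hq j)) _ hi1 (by omega))
      · by_cases hs : i - j ≤ 1
        · rw [hc2 j _ hs, zero_smul]; exact Submodule.zero_mem _
        · exact Submodule.smul_mem _ _ (hNN (j + 1) _ (hg j _ (hq j)) _ hi1 (by omega))
      · by_cases hs : j = 0
        · rw [e3 hs, map_zero, smul_zero]; exact Submodule.zero_mem _
        · exact Submodule.smul_mem _ _ (hNN (j - 1) _ (hz j _ (hq j)) _ hi1 (by omega))
  rcases Nat.eq_zero_or_pos i with hi0 | hi0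
  · have hXv : X v = 0 := by
      rw [hqe, map_sum]
      refine Finset.sum_eq_zero fun j hj => ?_
      rw [Finset.mem_filter, Finset.mem_range] at hj
      exact (hterm j (by omega) hj.2).1 hi0
    rw [hXv]
    exact ⟨fun k _ _ => map_zero _, fun k _ _ => map_zero _⟩
  · have hXv : X v ∈ NN d P d Q (i - 1) (i - 1) := by
      rw [hqe, map_sum]
      refine Submodule.sum_mem _ fun j hj => ?_
      rw [Finset.mem_filter, Finset.mem_range] at hj
      exact (hterm j (by omega) hj.2).2 hi0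
    exact ⟨fun k hk hik => (mem_NN.mp hXv).1 k hk (by omega),
      fun k hk hik => (mem_NN.mp hXv).2 k hk (by omega)⟩

theorem lin_zero {M : Type*} [AddCommGroup M] [Module K M] (a : ℕ → K) (j : ℕ)
    (L : K[X] →ₗ[K] M) (m : ℕ) (hL : ∀ s ≤ m, L (str a j s) = 0) :
    ∀ p : K[X], p.natDegree ≤ m → L p = 0 := by
  have key : ∀ n, n ≤ m → ∀ p : K[X], p.natDegree ≤ n → L p = 0 := by
    intro n
    induction n with
    | zero =>
      intro hn p hp
      have h1 : p = C (p.coeff 0) * str a j 0 := by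
        rw [str_zero, mul_one]
        exact Polynomial.eq_C_of_natDegree_le_zero hp
      rw [h1, ← smul_eq_C_mul, map_smul, hL 0 hn, smul_zero]
    | succ n ih =>
      intro hn p hp
      have h1 : (p - C (p.coeff (n + 1)) * str a j (n + 1)).natDegree ≤ n := by
        rw [Polynomial.natDegree_le_iff_coeff_eq_zero]
        intro N hN
        rw [coeff_sub, coeff_C_mul]
        by_cases hN' : N = n + 1
        · subst hN'
          have h2 : (str a j (n + 1)).coeff (n + 1) = 1 := by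
            have := str_monic a j (n + 1)
            rw [Monic, leadingCoeff, str_natDegree] at this
            exact this
          rw [h2, mul_one, sub_self]
        · have h2 : p.coeff N = 0 := coeff_eq_zero_of_natDegree_lt (by omega)
          have h3 : (str a j (n + 1)).coeff N = 0 :=
            coeff_eq_zero_of_natDegree_lt (by rw [str_natDegree]; omega)
          rw [h2, h3, mul_zero, sub_zero]
      have h2 := ih (by omega) _ h1
      rw [map_sub, ← smul_eq_C_mul, map_smul, hL (n + 1) hn, smul_zero, sub_zero] at h2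
      exact h2
  exact key m le_rfl

/-- the formula for the reversed strings follows from the one for the strings -/
theorem formula_rev (β : K)
    (hrec : ∀ i, i + 3 ≤ d → a i - a (i + 3) = (β + 1) * (a (i + 1) - a (i + 2)))
    (j : ℕ) (q x y z : V) (hz0 : j = 0 → z = 0)
    (hX : ∀ s, 2 * j + s ≤ d → X (aeval A (str a j s) q) =
      AA d a j s • aeval A (str a j (s - 1)) x + TT β (s - 1) • aeval A (str a (j + 1) (s - 2)) y +
      TT β (d + 1 - 2 * j - s) • aeval A (str a (j - 1) s) z) (s : ℕ) (hs : 2 * j + s ≤ d) :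
    X (aeval A (str (fun i => a (d - i)) j s) q) =
      AA d a j s • aeval A (str (fun i => a (d - i)) j (s - 1)) x +
      TT β (s - 1) • aeval A (str (fun i => a (d - i)) (j + 1) (s - 2)) y +
      TT β (d + 1 - 2 * j - s) • aeval A (str (fun i => a (d - i)) (j - 1) s) z := by
  obtain ⟨D, hD⟩ := poly_D d a β hrec
  obtain ⟨Ψ, hΨ⟩ := poly_Psi d a β hrec j (by omega)
  obtain ⟨E, hE⟩ : ∃ E : K[X] →ₗ[K] K[X], ∀ s, 2 * j + s ≤ d →
      (TT β (d + 1 - 2 * j - s) • aeval A (str a (j - 1) s) z = aeval A (E (str a j s)) z ∧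
      TT β (d + 1 - 2 * j - s) • aeval A (str (fun i => a (d - i)) (j - 1) s) z =
        aeval A (E (str (fun i => a (d - i)) j s)) z) := by
    rcases j with _ | j
    · refine ⟨0, fun s _ => ?_⟩
      rw [hz0 rfl]
      simp
    · obtain ⟨E, hE⟩ := poly_E d a β hrec j (by omega)
      refine ⟨E, fun s hs => ?_⟩
      rw [(hE s hs).1, (hE s hs).2, map_mul, map_mul, Module.End.mul_apply, Module.End.mul_apply,
        aeval_C, Module.algebraMap_end_apply, Module.algebraMap_end_apply, Nat.add_sub_cancel,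
        show d + 1 - 2 * (j + 1) - s = d - 1 - 2 * j - s by omega]
      exact ⟨rfl, rfl⟩
  -- the difference of the two linear maps
  let ev : V → K[X] →ₗ[K] V := fun v => (LinearMap.applyₗ v) ∘ₗ (aeval A).toLinearMap
  have hev : ∀ v p, ev v p = aeval A p v := fun v p => rfl
  let L : K[X] →ₗ[K] V := X ∘ₗ ev q - ev x ∘ₗ Ψ - ev y ∘ₗ D - ev z ∘ₗ E
  have hL : ∀ p, L p = X (aeval A p q) - aeval A (Ψ p) x - aeval A (D p) y - aeval A (E p) z :=
    fun p => rfl
  have h0 : ∀ t ≤ d - 2 * j, L (str a j t) = 0 := by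
    intro t ht
    rw [hL, hX t (by omega), (hE t (by omega)).1, (hΨ t (by omega)).1, (hD j t (by omega)).1,
      map_mul, map_mul, Module.End.mul_apply, Module.End.mul_apply, aeval_C, aeval_C,
      Module.algebraMap_end_apply, Module.algebraMap_end_apply]
    abel
  have h1 := lin_zero a j L (d - 2 * j) h0 (str (fun i => a (d - i)) j s)
    (by rw [str_natDegree]; omega)
  rw [hL, (hΨ s hs).2, (hD j s hs).2, map_mul, map_mul, Module.End.mul_apply,
    Module.End.mul_apply, aeval_C, aeval_C, Module.algebraMap_end_apply,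
    Module.algebraMap_end_apply, ← (hE s hs).2, sub_sub, sub_sub, sub_eq_zero] at h1
  rw [h1]
  abel

/-- The component of the third kind as a map into `V`. -/
def zV (z : ∀ j, LW d P Q (j + 1) →ₗ[K] LW d P Q j) : ∀ j, LW d P Q j →ₗ[K] V
  | 0 => 0
  | (j + 1) => (LW d P Q j).subtype ∘ₗ z j

theorem zV_mem (z : ∀ j, LW d P Q (j + 1) →ₗ[K] LW d P Q j) (j : ℕ) (q : LW d P Q j) :
    zV z j q ∈ LW d P Q (j - 1) := by
  rcases j with _ | j
  · exact Submodule.zero_mem _
  · exact (z j q).2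

/-- The formula for `X` on the strings. -/
def Fml (A : Module.End K V) (d : ℕ) (a : ℕ → K) (P Q : ℕ → Module.End K V) (β : K)
    (f : ∀ j, LW d P Q j →ₗ[K] LW d P Q j) (g : ∀ j, LW d P Q j →ₗ[K] LW d P Q (j + 1))
    (z : ∀ j, LW d P Q (j + 1) →ₗ[K] LW d P Q j) (X : Module.End K V) : Prop :=
  ∀ j s, 2 * j + s ≤ d → ∀ q : LW d P Q j, X (aeval A (str a j s) (q : V)) =
    AA d a j s • aeval A (str a j (s - 1)) (f j q : V) +
    TT β (s - 1) • aeval A (str a (j + 1) (s - 2)) (g j q : V) +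
    TT β (d + 1 - 2 * j - s) • aeval A (str a (j - 1) s) (zV z j q)

theorem Sys.exists_X (h : Sys A B d a P d b Q) (β : K)
    (f : ∀ j, LW d P Q j →ₗ[K] LW d P Q j) (g : ∀ j, LW d P Q j →ₗ[K] LW d P Q (j + 1))
    (z : ∀ j, LW d P Q (j + 1) →ₗ[K] LW d P Q j) :
    ∃ X : Module.End K V, Fml A d a P Q β f g z X := by
  obtain ⟨X, hX⟩ := Sys.exists_map h (W := V) (fun j s =>
    AA d a j s • (aeval A (str a j (s - 1)) ∘ₗ (LW d P Q j).subtype ∘ₗ f j) +
    TT β (s - 1) • (aeval A (str a (j + 1) (s - 2)) ∘ₗ (LW d P Q (j + 1)).subtype ∘ₗ g j) +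
    TT β (d + 1 - 2 * j - s) • (aeval A (str a (j - 1) s) ∘ₗ zV z j))
  exact ⟨X, fun j s hjs q => hX j s hjs q⟩

theorem AA_zero (d : ℕ) (a : ℕ → K) (j : ℕ) : AA d a j 0 = 0 := by simp [AA]

theorem AA_top (d : ℕ) (a : ℕ → K) (j : ℕ) (hj : 2 * j ≤ d) :
    AA d a j (d - 2 * j) = a j - a (d - j) := by
  obtain ⟨m, rfl⟩ : ∃ m, d = 2 * j + m := ⟨d - 2 * j, by omega⟩
  rw [AA, Finset.sum_sub_distrib, show 2 * j + m - 2 * j = m by omega,
    ← Finset.sum_range_reflect (fun h => a (2 * j + m - j - h)) m]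
  have h1 : ∑ h ∈ Finset.range m, a (2 * j + m - j - (m - 1 - h)) =
      ∑ h ∈ Finset.range m, a (j + (h + 1)) := by
    refine Finset.sum_congr rfl fun h hh => ?_
    have := Finset.mem_range.mp hh
    congr 1
    omega
  rw [h1, ← Finset.sum_sub_distrib, Finset.sum_range_sub' (fun h => a (j + h)), add_zero]
  congr 2
  omega

theorem Fml.SL (h : Sys A B d a P d b Q) (β : K)
    (hrec : ∀ i, i + 3 ≤ d → a i - a (i + 3) = (β + 1) * (a (i + 1) - a (i + 2)))
    (f : ∀ j, LW d P Q j →ₗ[K] LW d P Q j) (g : ∀ j, LW d P Q j →ₗ[K] LW d P Q (j + 1))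
    (z : ∀ j, LW d P Q (j + 1) →ₗ[K] LW d P Q j) (hX : Fml A d a P Q β f g z X) :
    SL d P Q X := by
  classical
  let f' : ℕ → V → V := fun j v => if hv : v ∈ LW d P Q j then (f j ⟨v, hv⟩ : V) else 0
  let g' : ℕ → V → V := fun j v => if hv : v ∈ LW d P Q j then (g j ⟨v, hv⟩ : V) else 0
  let z' : ℕ → V → V := fun j v => if hv : v ∈ LW d P Q j then (zV z j ⟨v, hv⟩ : V) else 0
  have ef : ∀ j, ∀ q (hq : q ∈ LW d P Q j), f' j q = (f j ⟨q, hq⟩ : V) := fun j q hq => dif_pos hq
  have eg : ∀ j, ∀ q (hq : q ∈ LW d P Q j), g' j q = (g j ⟨q, hq⟩ : V) := fun j q hq => dif_pos hq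
  have ez : ∀ j, ∀ q (hq : q ∈ LW d P Q j), z' j q = (zV z j ⟨q, hq⟩ : V) :=
    fun j q hq => dif_pos hq
  have hf : ∀ j, ∀ q ∈ LW d P Q j, f' j q ∈ LW d P Q j := by
    intro j q hq; rw [ef j q hq]; exact (f j ⟨q, hq⟩).2
  have hg : ∀ j, ∀ q ∈ LW d P Q j, g' j q ∈ LW d P Q (j + 1) := by
    intro j q hq; rw [eg j q hq]; exact (g j ⟨q, hq⟩).2
  have hz : ∀ j, ∀ q ∈ LW d P Q j, z' j q ∈ LW d P Q (j - 1) := by
    intro j q hq; rw [ez j q hq]; exact zV_mem z j ⟨q, hq⟩
  have hz0 : ∀ q ∈ LW d P Q 0, z' 0 q = 0 := by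
    intro q hq; rw [ez 0 q hq]; rfl
  have hT : ∀ s, s ≤ 1 → TT β (s - 1) = 0 := by
    intro s hs
    rw [show s - 1 = 0 by omega]
    rfl
  have hF : ∀ j s, 2 * j + s ≤ d → ∀ q ∈ LW d P Q j, X (aeval A (str a j s) q) =
      AA d a j s • aeval A (str a j (s - 1)) (f' j q) +
      TT β (s - 1) • aeval A (str a (j + 1) (s - 2)) (g' j q) +
      TT β (d + 1 - 2 * j - s) • aeval A (str a (j - 1) s) (z' j q) := by
    intro j s hjs q hq
    rw [ef j q hq, eg j q hq, ez j q hq]
    exact hX j s hjs ⟨q, hq⟩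
  refine Sys.SL_of_UL h ?_ ?_
  · exact Sys.UL_of_formula h f' g' z' hf hg hz hz0 (AA d a) (fun _ s => TT β (s - 1))
      (fun j s => TT β (d + 1 - 2 * j - s)) (AA_zero d a) (fun _ s hs => hT s hs) hF
  · refine Sys.UL_of_formula h.revA f' g' z' ?_ ?_ ?_ ?_ (AA d a) (fun _ s => TT β (s - 1))
      (fun j s => TT β (d + 1 - 2 * j - s)) (AA_zero d a) (fun _ s hs => hT s hs) ?_
    · intro j q hq; rw [LW_rev] at hq ⊢; exact hf j q hq
    · intro j q hq; rw [LW_rev] at hq ⊢; exact hg j q hq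
    · intro j q hq; rw [LW_rev] at hq ⊢; exact hz j q hq
    · intro q hq; rw [LW_rev] at hq; exact hz0 q hq
    · intro j s hjs q hq
      rw [LW_rev] at hq
      exact formula_rev β hrec j q (f' j q) (g' j q) (z' j q)
        (fun hj => by subst hj; exact hz0 q hq) (fun t ht => hF j t ht q hq) s hjs

/-- every map satisfying the conditions is given by the formula -/
theorem Sys.exists_Fml (h : Sys A B d a P d b Q) (β : K)
    (hrec : ∀ i, i + 3 ≤ d → a i - a (i + 3) = (β + 1) * (a (i + 1) - a (i + 2)))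
    (hX : SL d P Q X) : ∃ (f : ∀ j, LW d P Q j →ₗ[K] LW d P Q j)
      (g : ∀ j, LW d P Q j →ₗ[K] LW d P Q (j + 1)) (z : ∀ j, LW d P Q (j + 1) →ₗ[K] LW d P Q j),
      Fml A d a P Q β f g z X := by
  choose c hc using fun j s => Sys.exists_coord h j s
  let f : ∀ j, LW d P Q j →ₗ[K] LW d P Q j := fun j =>
    if 2 * j + 1 ≤ d then (AA d a j (d - 2 * j))⁻¹ • (c j (d - 2 * j - 1) ∘ₗ X ∘ₗ
      aeval A (str a j (d - 2 * j)) ∘ₗ (LW d P Q j).subtype) else 0
  let g : ∀ j, LW d P Q j →ₗ[K] LW d P Q (j + 1) := fun j =>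
    if 2 * j + 2 ≤ d then (TT β (d - 2 * j - 1))⁻¹ • (c (j + 1) (d - 2 * j - 2) ∘ₗ X ∘ₗ
      aeval A (str a j (d - 2 * j)) ∘ₗ (LW d P Q j).subtype) else 0
  let z : ∀ j, LW d P Q (j + 1) →ₗ[K] LW d P Q j := fun j =>
    if 2 * (j + 1) ≤ d then (c j (d - 2 * (j + 1)) ∘ₗ X ∘ₗ
      aeval A (str a (j + 1) (d - 2 * (j + 1))) ∘ₗ (LW d P Q (j + 1)).subtype) else 0
  obtain ⟨X', hX'⟩ := Sys.exists_X h β f g z
  have hSL' := Fml.SL h β hrec f g z hX'
  -- the two maps agree on the tops of the strings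
  have htop : ∀ j, 2 * j ≤ d → ∀ q ∈ LW d P Q j,
      (X - X') (aeval A (str a j (d - 2 * j)) q) = 0 := by
    intro j hj q hq
    obtain ⟨x, y, w, hx, hy, hw, hx0, hy0, hw0, he⟩ := Sys.top_image h hX j hj q hq
    have h2 := hX' j (d - 2 * j) (by omega) ⟨q, hq⟩
    have hfq : AA d a j (d - 2 * j) • aeval A (str a j (d - 2 * j - 1)) (f j ⟨q, hq⟩ : V) =
        aeval A (str a j (d - 2 * j - 1)) x := by
      by_cases hd : 2 * j + 1 ≤ d
      · have h3 : (f j ⟨q, hq⟩ : V) = (AA d a j (d - 2 * j))⁻¹ • x := by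
          show (((if 2 * j + 1 ≤ d then (AA d a j (d - 2 * j))⁻¹ • (c j (d - 2 * j - 1) ∘ₗ X ∘ₗ
            aeval A (str a j (d - 2 * j)) ∘ₗ (LW d P Q j).subtype) else 0 :
            LW d P Q j →ₗ[K] LW d P Q j) ⟨q, hq⟩ : LW d P Q j) : V) = _
          rw [if_pos hd, LinearMap.smul_apply, Submodule.coe_smul]
          congr 1
          simp only [LinearMap.comp_apply, Submodule.subtype_apply]
          rw [he, map_add, map_add, Submodule.coe_add, Submodule.coe_add,
            hc j (d - 2 * j - 1) j (d - 2 * j - 1) (by omega) x hx, if_pos ⟨rfl, rfl⟩]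
          have h4 : (c j (d - 2 * j - 1) (aeval A (str a (j + 1) (d - 2 * j - 2)) y) : V) = 0 := by
            by_cases hd2 : 2 * j + 2 ≤ d
            · rw [hc j (d - 2 * j - 1) (j + 1) (d - 2 * j - 2) (by omega) y hy,
                if_neg (by omega)]
            · rw [hy0 (by omega), map_zero, map_zero]; rfl
          have h5 : (c j (d - 2 * j - 1) (aeval A (str a (j - 1) (d - 2 * j)) w) : V) = 0 := by
            by_cases hj0 : j = 0
            · rw [hw0 hj0, map_zero, map_zero]; rfl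
            · rw [hc j (d - 2 * j - 1) (j - 1) (d - 2 * j) (by omega) w hw, if_neg (by omega)]
          rw [h4, h5, add_zero, add_zero]
        rw [h3, map_smul, smul_smul, mul_inv_cancel₀, one_smul]
        rw [AA_top d a j hj]
        intro h4
        have := h.iA.inj j (by omega) (d - j) (by omega) (sub_eq_zero.mp h4)
        omega
      · rw [show d - 2 * j = 0 by omega, AA_zero, zero_smul, hx0 (by omega), map_zero]
    have hgq : TT β (d - 2 * j - 1) • aeval A (str a (j + 1) (d - 2 * j - 2)) (g j ⟨q, hq⟩ : V) =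
        aeval A (str a (j + 1) (d - 2 * j - 2)) y := by
      by_cases hd : 2 * j + 2 ≤ d
      · have h3 : (g j ⟨q, hq⟩ : V) = (TT β (d - 2 * j - 1))⁻¹ • y := by
          show (((if 2 * j + 2 ≤ d then (TT β (d - 2 * j - 1))⁻¹ • (c (j + 1) (d - 2 * j - 2) ∘ₗ
            X ∘ₗ aeval A (str a j (d - 2 * j)) ∘ₗ (LW d P Q j).subtype) else 0 :
            LW d P Q j →ₗ[K] LW d P Q (j + 1)) ⟨q, hq⟩ : LW d P Q (j + 1)) : V) = _
          rw [if_pos hd, LinearMap.smul_apply, Submodule.coe_smul]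
          congr 1
          simp only [LinearMap.comp_apply, Submodule.subtype_apply]
          rw [he, map_add, map_add, Submodule.coe_add, Submodule.coe_add,
            hc (j + 1) (d - 2 * j - 2) (j + 1) (d - 2 * j - 2) (by omega) y hy,
            if_pos ⟨rfl, rfl⟩, hc (j + 1) (d - 2 * j - 2) j (d - 2 * j - 1) (by omega) x hx,
            if_neg (by omega)]
          have h5 : (c (j + 1) (d - 2 * j - 2) (aeval A (str a (j - 1) (d - 2 * j)) w) : V) =
              0 := by
            by_cases hj0 : j = 0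
            · rw [hw0 hj0, map_zero, map_zero]; rfl
            · rw [hc (j + 1) (d - 2 * j - 2) (j - 1) (d - 2 * j) (by omega) w hw,
                if_neg (by omega)]
          rw [h5, add_zero, zero_add]
        rw [h3, map_smul, smul_smul, mul_inv_cancel₀, one_smul]
        obtain ⟨m, hm⟩ : ∃ m, d - 2 * j - 1 = m + 1 := ⟨d - 2 * j - 2, by omega⟩
        rw [hm]
        exact TT_ne_zero d a β h.iA.inj hrec m (by omega)
      · rw [show d - 2 * j - 1 = 0 by omega, hy0 (by omega), map_zero]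
        exact zero_smul K _
    have hzq : TT β (d + 1 - 2 * j - (d - 2 * j)) •
        aeval A (str a (j - 1) (d - 2 * j)) (zV z j ⟨q, hq⟩) =
        aeval A (str a (j - 1) (d - 2 * j)) w := by
      rw [show d + 1 - 2 * j - (d - 2 * j) = 1 by omega]
      have hT1 : TT β 1 = 1 := rfl
      rw [hT1, one_smul]
      rcases j with _ | j
      · rw [hw0 rfl]; rfl
      · have h3 : zV z (j + 1) ⟨q, hq⟩ = w := by
          show (((if 2 * (j + 1) ≤ d then (c j (d - 2 * (j + 1)) ∘ₗ X ∘ₗ
            aeval A (str a (j + 1) (d - 2 * (j + 1))) ∘ₗ (LW d P Q (j + 1)).subtype) else 0 :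
            LW d P Q (j + 1) →ₗ[K] LW d P Q j) ⟨q, hq⟩ : LW d P Q j) : V) = _
          rw [if_pos hj]
          simp only [LinearMap.comp_apply, Submodule.subtype_apply]
          rw [he, map_add, map_add, Submodule.coe_add, Submodule.coe_add,
            hc j (d - 2 * (j + 1)) (j + 1 - 1) (d - 2 * (j + 1)) (by omega) w hw,
            if_pos ⟨rfl, rfl⟩]
          have h4 : (c j (d - 2 * (j + 1)) (aeval A (str a (j + 1) (d - 2 * (j + 1) - 1)) x) : V) =
              0 := by
            by_cases hd2 : 2 * (j + 1) + 1 ≤ d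
            · rw [hc j (d - 2 * (j + 1)) (j + 1) (d - 2 * (j + 1) - 1) (by omega) x hx,
                if_neg (by omega)]
            · rw [hx0 (by omega), map_zero, map_zero]; rfl
          have h5 : (c j (d - 2 * (j + 1))
              (aeval A (str a (j + 1 + 1) (d - 2 * (j + 1) - 2)) y) : V) = 0 := by
            by_cases hd2 : 2 * (j + 1) + 2 ≤ d
            · rw [hc j (d - 2 * (j + 1)) (j + 1 + 1) (d - 2 * (j + 1) - 2) (by omega) y hy,
                if_neg (by omega)]
            · rw [hy0 (by omega), map_zero, map_zero]; rfl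
          rw [h4, h5, zero_add, zero_add]
        rw [h3]
    rw [LinearMap.sub_apply, he]
    have h2' : X' (aeval A (str a j (d - 2 * j)) q) = _ := h2
    rw [h2', hfq, hgq, hzq, sub_self]
  have hsub := SL.sub hX hSL'
  have hXX : X = X' := by
    refine Sys.map_ext h X X' fun j s hjs q hq => ?_
    have h1 := Sys.L10 h hsub j (by omega) q hq (htop j (by omega) q hq) s hjs
    rwa [LinearMap.sub_apply, sub_eq_zero] at h1
  exact ⟨f, g, z, hXX ▸ hX'⟩

/-- uniqueness of the parameters -/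
theorem Fml.unique (h : Sys A B d a P d b Q) (β : K)
    (hrec : ∀ i, i + 3 ≤ d → a i - a (i + 3) = (β + 1) * (a (i + 1) - a (i + 2)))
    (f f' : ∀ j, LW d P Q j →ₗ[K] LW d P Q j) (g g' : ∀ j, LW d P Q j →ₗ[K] LW d P Q (j + 1))
    (z z' : ∀ j, LW d P Q (j + 1) →ₗ[K] LW d P Q j) (hX : Fml A d a P Q β f g z X)
    (hX' : Fml A d a P Q β f' g' z' X) :
    (∀ j, 2 * j + 1 ≤ d → f j = f' j) ∧ (∀ j, 2 * j + 2 ≤ d → g j = g' j) ∧
      (∀ j, 2 * j + 2 ≤ d → z j = z' j) := by
  choose c hc using fun j s => Sys.exists_coord h j s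
  -- the three terms
  have hdec : ∀ (f : ∀ j, LW d P Q j →ₗ[K] LW d P Q j) (g : ∀ j, LW d P Q j →ₗ[K] LW d P Q (j + 1))
      (z : ∀ j, LW d P Q (j + 1) →ₗ[K] LW d P Q j), Fml A d a P Q β f g z X →
      (∀ j, 2 * j + 1 ≤ d → ∀ q : LW d P Q j,
        (c j (d - 2 * j - 1) (X (aeval A (str a j (d - 2 * j)) (q : V))) : V) =
          AA d a j (d - 2 * j) • (f j q : V)) ∧
      (∀ j, 2 * j + 2 ≤ d → ∀ q : LW d P Q j,
        (c (j + 1) (d - 2 * j - 2) (X (aeval A (str a j (d - 2 * j)) (q : V))) : V) =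
          TT β (d - 2 * j - 1) • (g j q : V)) ∧
      (∀ j, 2 * j + 2 ≤ d → ∀ q : LW d P Q (j + 1),
        (c j (d - 2 * (j + 1)) (X (aeval A (str a (j + 1) (d - 2 * (j + 1))) (q : V))) : V) =
          (z j q : V)) := by
    intro f g z hX
    refine ⟨fun j hj q => ?_, fun j hj q => ?_, fun j hj q => ?_⟩
    · rw [hX j (d - 2 * j) (by omega) q, map_add, map_add, Submodule.coe_add, Submodule.coe_add,
        map_smul, map_smul, map_smul, Submodule.coe_smul, Submodule.coe_smul, Submodule.coe_smul,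
        hc j (d - 2 * j - 1) j (d - 2 * j - 1) (by omega) _ (f j q).2, if_pos ⟨rfl, rfl⟩]
      have h4 : TT β (d - 2 * j - 1) •
          (c j (d - 2 * j - 1) (aeval A (str a (j + 1) (d - 2 * j - 2)) (g j q : V)) : V) = 0 := by
        by_cases hd2 : 2 * j + 2 ≤ d
        · rw [hc j (d - 2 * j - 1) (j + 1) (d - 2 * j - 2) (by omega) _ (g j q).2,
            if_neg (by omega), smul_zero]
        · rw [show d - 2 * j - 1 = 0 by omega]
          exact zero_smul K _
      have h5 : (c j (d - 2 * j - 1) (aeval A (str a (j - 1) (d - 2 * j)) (zV z j q)) : V) =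
          0 := by
        by_cases hj0 : j = 0
        · subst hj0
          have : zV z 0 q = 0 := rfl
          rw [this, map_zero, map_zero]; rfl
        · rw [hc j (d - 2 * j - 1) (j - 1) (d - 2 * j) (by omega) _ (zV_mem z j q),
            if_neg (by omega)]
      rw [h4, h5, smul_zero, add_zero, add_zero]
    · rw [hX j (d - 2 * j) (by omega) q, map_add, map_add, Submodule.coe_add, Submodule.coe_add,
        map_smul, map_smul, map_smul, Submodule.coe_smul, Submodule.coe_smul, Submodule.coe_smul,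
        hc (j + 1) (d - 2 * j - 2) j (d - 2 * j - 1) (by omega) _ (f j q).2, if_neg (by omega),
        hc (j + 1) (d - 2 * j - 2) (j + 1) (d - 2 * j - 2) (by omega) _ (g j q).2,
        if_pos ⟨rfl, rfl⟩]
      have h5 : (c (j + 1) (d - 2 * j - 2) (aeval A (str a (j - 1) (d - 2 * j)) (zV z j q)) : V) =
          0 := by
        by_cases hj0 : j = 0
        · subst hj0
          have : zV z 0 q = 0 := rfl
          rw [this, map_zero, map_zero]; rfl
        · rw [hc (j + 1) (d - 2 * j - 2) (j - 1) (d - 2 * j) (by omega) _ (zV_mem z j q),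
            if_neg (by omega)]
      rw [h5, smul_zero, smul_zero, add_zero, zero_add]
    · have hT : TT β (d + 1 - 2 * (j + 1) - (d - 2 * (j + 1))) = 1 := by
        rw [show d + 1 - 2 * (j + 1) - (d - 2 * (j + 1)) = 1 by omega]; rfl
      rw [hX (j + 1) (d - 2 * (j + 1)) (by omega) q, map_add, map_add, Submodule.coe_add,
        Submodule.coe_add, map_smul, map_smul, map_smul, Submodule.coe_smul, Submodule.coe_smul,
        Submodule.coe_smul, hT, one_smul]
      have h4 : AA d a (j + 1) (d - 2 * (j + 1)) • (c j (d - 2 * (j + 1))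
          (aeval A (str a (j + 1) (d - 2 * (j + 1) - 1)) (f (j + 1) q : V)) : V) = 0 := by
        by_cases hd2 : 2 * (j + 1) + 1 ≤ d
        · rw [hc j (d - 2 * (j + 1)) (j + 1) (d - 2 * (j + 1) - 1) (by omega) _ (f (j + 1) q).2,
            if_neg (by omega), smul_zero]
        · rw [show d - 2 * (j + 1) = 0 by omega, AA_zero, zero_smul]
      have h5 : TT β (d - 2 * (j + 1) - 1) • (c j (d - 2 * (j + 1))
          (aeval A (str a (j + 1 + 1) (d - 2 * (j + 1) - 2)) (g (j + 1) q : V)) : V) = 0 := by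
        by_cases hd2 : 2 * (j + 1) + 2 ≤ d
        · rw [hc j (d - 2 * (j + 1)) (j + 1 + 1) (d - 2 * (j + 1) - 2) (by omega) _
            (g (j + 1) q).2, if_neg (by omega), smul_zero]
        · rw [show d - 2 * (j + 1) - 1 = 0 by omega]
          exact zero_smul K _
      rw [h4, h5, zero_add, zero_add,
        hc j (d - 2 * (j + 1)) (j + 1 - 1) (d - 2 * (j + 1)) (by omega) _ (zV_mem z (j + 1) q),
        if_pos ⟨rfl, rfl⟩]
      rfl
  obtain ⟨h1, h2, h3⟩ := hdec f g z hX
  obtain ⟨h1', h2', h3'⟩ := hdec f' g' z' hX'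
  refine ⟨fun j hj => ?_, fun j hj => ?_, fun j hj => ?_⟩
  · refine LinearMap.ext fun q => Subtype.ext ?_
    have h4 := (h1 j hj q).symm.trans (h1' j hj q)
    rw [← sub_eq_zero, ← smul_sub] at h4
    rcases smul_eq_zero.mp h4 with h5 | h5
    · exfalso
      rw [AA_top d a j (by omega)] at h5
      have := h.iA.inj j (by omega) (d - j) (by omega) (sub_eq_zero.mp h5)
      omega
    · exact sub_eq_zero.mp h5
  · refine LinearMap.ext fun q => Subtype.ext ?_
    have h4 := (h2 j hj q).symm.trans (h2' j hj q)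
    rw [← sub_eq_zero, ← smul_sub] at h4
    rcases smul_eq_zero.mp h4 with h5 | h5
    · exfalso
      obtain ⟨m, hm⟩ : ∃ m, d - 2 * j - 1 = m + 1 := ⟨d - 2 * j - 2, by omega⟩
      rw [hm] at h5
      exact TT_ne_zero d a β h.iA.inj hrec m (by omega) h5
    · exact sub_eq_zero.mp h5
  · refine LinearMap.ext fun q => Subtype.ext ?_
    exact (h3 j hj q).symm.trans (h3' j hj q)

end Pool.Agent.R841.TD
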