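import Pool.Agent.R841.TD.Defs
import Pool.Agent.Helper9.TDNec

/-! Exact statements of the independent pieces of the project TD (MP_770f2c). Do not import. -/

set_option autoImplicit false

namespace Pool.Agent.R841.TD.Stm

open Polynomial Module Pool.Agent.Helper9.TD Pool.Agent.R841.TD

/-- TD-REC -/
theorem rec_a {K : Type*} [Field K] {V : Type*} [AddCommGroup V] [Module K V]
    {A B : Module.End K V} {d : ℕ} {a b : ℕ → K} {P Q : ℕ → Module.End K V}
    (h : Sys A B d a P d b Q) :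
    ∃ β : K, ∀ i, i + 3 ≤ d → a i - a (i + 3) = (β + 1) * (a (i + 1) - a (i + 2)) := by
  sorry

/-- TD-POLY, part D -/
theorem poly_D {K : Type*} [Field K] (d : ℕ) (a : ℕ → K) (β : K)
    (hrec : ∀ i, i + 3 ≤ d → a i - a (i + 3) = (β + 1) * (a (i + 1) - a (i + 2))) :
    ∃ D : K[X] →ₗ[K] K[X], ∀ j s, 2 * j + s ≤ d →
      D (str a j s) = C (TT β (s - 1)) * str a (j + 1) (s - 2) ∧
      D (str (fun i => a (d - i)) j s) =
        C (TT β (s - 1)) * str (fun i => a (d - i)) (j + 1) (s - 2) := by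
  sorry

/-- TD-POLY, part Ψ -/
theorem poly_Psi {K : Type*} [Field K] (d : ℕ) (a : ℕ → K) (β : K)
    (hrec : ∀ i, i + 3 ≤ d → a i - a (i + 3) = (β + 1) * (a (i + 1) - a (i + 2)))
    (j : ℕ) (hj : 2 * j ≤ d) :
    ∃ Ψ : K[X] →ₗ[K] K[X], ∀ s, 2 * j + s ≤ d →
      Ψ (str a j s) = C (AA d a j s) * str a j (s - 1) ∧
      Ψ (str (fun i => a (d - i)) j s) =
        C (AA d a j s) * str (fun i => a (d - i)) j (s - 1) := by
  sorry

/-- TD-POLY, part E -/
theorem poly_E {K : Type*} [Field K] (d : ℕ) (a : ℕ → K) (β : K)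
    (hrec : ∀ i, i + 3 ≤ d → a i - a (i + 3) = (β + 1) * (a (i + 1) - a (i + 2)))
    (j : ℕ) (hj : 2 * (j + 1) ≤ d) :
    ∃ E : K[X] →ₗ[K] K[X], ∀ s, 2 * (j + 1) + s ≤ d →
      E (str a (j + 1) s) = C (TT β (d - 1 - 2 * j - s)) * str a j s ∧
      E (str (fun i => a (d - i)) (j + 1) s) =
        C (TT β (d - 1 - 2 * j - s)) * str (fun i => a (d - i)) j s := by
  sorry

/-- TD-POLY, part N: nonvanishing -/
theorem TT_ne_zero {K : Type*} [Field K] (d : ℕ) (a : ℕ → K) (β : K)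
    (hinj : ∀ i ≤ d, ∀ j ≤ d, a i = a j → i = j)
    (hrec : ∀ i, i + 3 ≤ d → a i - a (i + 3) = (β + 1) * (a (i + 1) - a (i + 2)))
    (n : ℕ) (hn : n + 2 ≤ d) : TT β (n + 1) ≠ 0 := by
  sorry

end Pool.Agent.R841.TD.Stm
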